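import Pool.Agent.H7.TF.Targets

/-!
# MP_7a929c_al : module A6 (existence of the cut)
-/

set_option autoImplicit false

namespace Pool.Agent.H44.TF

open Equiv Pool.Agent.H7.TF

/-- an equivalence relation preserved by a permutation contains its cycles -/
theorem rel_of_sameCycle {D : Type} (α : Perm D) (r : Setoid D) (h : ∀ z, r (α z) z) {x y : D}
    (hxy : α.SameCycle x y) : r x y := by
  obtain ⟨n, rfl⟩ := hxy
  have key : ∀ n : ℤ, r ((α ^ n) x) x := by
    intro n
    induction n using Int.induction_on with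
    | zero => simpa using r.refl x
    | succ n ih =>
      have h1 : (α ^ ((n : ℤ) + 1)) x = α ((α ^ (n : ℤ)) x) := by
        rw [add_comm, zpow_add, zpow_one, Perm.mul_apply]
      rw [h1]
      exact r.trans (h _) ih
    | pred n ih =>
      have h1 : α ((α ^ (-(n : ℤ) - 1)) x) = (α ^ (-(n : ℤ))) x := by
        rw [← Perm.mul_apply, ← zpow_one_add]; congr 2; ring
      refine r.trans ?_ ih
      rw [← h1]
      exact r.symm (h _)
  exact r.symm (key n)

/-- the conditions of a cut, without `uniq` -/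
structure Cut0 {D : Type} (σ θ ω : Perm D) (O : Set D) : Prop where
  off : ∀ z, z ∉ O → ω z = z
  on : ∀ z, z ∈ O → ω z ∈ O
  same : ∀ z, σ.SameCycle (ω z) z
  planar : Planar (ω * σ) θ

theorem a6 (h1 : T_A1) (h3 : T_A3) : T_A6 := by
  intro D _ _ σ θ O hp
  classical
  let S : Set ℕ := {n | ∃ ω, Cut0 σ θ ω O ∧ nc (ω * σ) = n}
  have hne : S.Nonempty :=
    ⟨_, 1, ⟨fun _ _ => rfl, fun _ h => h, fun z => Perm.SameCycle.refl _ _, by simpa using hp⟩, rfl⟩
  have hbd : BddAbove S := by
    refine ⟨Nat.card D, ?_⟩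
    rintro n ⟨ω, -, rfl⟩
    exact Nat.card_le_card_of_surjective (Quotient.mk _) Quotient.mk_surjective
  obtain ⟨ω, hω, hmax⟩ := Nat.sSup_mem hne hbd
  have hmax' : ∀ ω', Cut0 σ θ ω' O → nc (ω' * σ) ≤ nc (ω * σ) := by
    intro ω' h'
    rw [hmax]
    exact le_csSup hbd ⟨ω', h', rfl⟩
  refine ⟨ω, hω.off, hω.on, hω.same, hω.planar, ?_⟩
  intro x hx y hy hxy
  by_contra hne'
  have hinc : ∀ {u v : D}, (ω * σ).SameCycle u v → σ.SameCycle u v := by
    intro u v huv
    refine rel_of_sameCycle (ω * σ) (Perm.SameCycle.setoid σ) ?_ huv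
    intro z
    show σ.SameCycle ((ω * σ) z) z
    rw [Perm.mul_apply]
    exact (hω.same (σ z)).trans ((Perm.sameCycle_apply_left).mpr (Perm.SameCycle.refl _ _))
  have hsame : σ.SameCycle x y := hinc hxy
  have hassoc : swap x y * ω * σ = swap x y * (ω * σ) := mul_assoc _ _ _
  have hcut : Cut0 σ θ (swap x y * ω) O := by
    refine ⟨?_, ?_, ?_, ?_⟩
    · intro z hz
      rw [Perm.mul_apply, hω.off z hz]
      apply swap_apply_of_ne_of_ne
      · rintro rfl; exact hz hx
      · rintro rfl; exact hz hy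
    · intro z hz
      rw [Perm.mul_apply]
      have := hω.on z hz
      by_cases h4 : ω z = x
      · rw [h4, swap_apply_left]; exact hy
      by_cases h5 : ω z = y
      · rw [h5, swap_apply_right]; exact hx
      rw [swap_apply_of_ne_of_ne h4 h5]; exact this
    · intro z
      rw [Perm.mul_apply]
      have := hω.same z
      by_cases h4 : ω z = x
      · rw [h4, swap_apply_left]; rw [h4] at this; exact hsame.symm.trans this
      by_cases h5 : ω z = y
      · rw [h5, swap_apply_right]; rw [h5] at this; exact hsame.trans this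
      rw [swap_apply_of_ne_of_ne h4 h5]; exact this
    · rw [hassoc]
      exact ((h3 D (ω * σ) θ x y hω.planar hne').2.1 (Or.inl hxy)).1
  have h6 := hmax' _ hcut
  rw [hassoc, (((h1 D (ω * σ) x y hne').1 hxy).2)] at h6
  omega

end Pool.Agent.H44.TF
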