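import Pool.Agent.H44.TF.Face

/-!
# MP_7a929c_al : module B3 (the diamond move, merging two mirror faces)
-/

set_option autoImplicit false

namespace Pool.Agent.H44.TF

open Equiv Pool.Agent.H7.TF

/-- the permutation of the merged faces -/
theorem phi_step {D : Type} [DecidableEq D] (σ1 θ1 : Perm D) (d z : D) :
    (σ1 * swap d (σ1⁻¹ d)) ((swap d (θ1 d) * θ1) z) =
      swap (σ1 d) d (swap (σ1 d) ((σ1 * θ1) d) ((σ1 * θ1) z)) := by
  rw [mul_swap_eq_swap_mul]
  have hh : ∀ x y z : D, σ1 (swap x y z) = swap (σ1 x) (σ1 y) (σ1 z) := by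
    intro x y z
    have := congrArg (fun f : Perm D => f z) (mul_swap_eq_swap_mul σ1 x y)
    simpa only [Perm.mul_apply] using this
  rw [Perm.mul_apply, Perm.mul_apply, ais, hh]
  rfl

theorem swap2_out {D : Type} [DecidableEq D] {x a b c : D} (h1 : x ≠ a) (h2 : x ≠ b)
    (h3 : x ≠ c) : swap a c (swap a b x) = x := by
  rw [swap_apply_of_ne_of_ne h1 h2, swap_apply_of_ne_of_ne h1 h3]

theorem b3 (h3 : T_A3) (h4 : T_A4) : T_B3 := by
  intro P _ R D _ _ σ θ h ty kind d d' j s k hp hsame hkd hkd' hh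
  classical
  obtain ⟨r, hr, -, -, -⟩ := hp.rel d j s k hkd
  have hL2 : 2 ≤ r.word.length := word_length r
  obtain ⟨N, hN⟩ : ∃ N, r.word.length = N + 1 := ⟨r.word.length - 1, by omega⟩
  have hN1 : 1 ≤ N := by omega
  -- the faces
  set φ : Perm D := σ * θ with hφ
  have hdiff : ¬ φ.SameCycle d d' := iter_ne_other hp hkd hkd' (by cases s <;> simp)
  have hdd : d ≠ d' := by
    rintro rfl; exact hdiff (Perm.SameCycle.refl _ _)
  obtain ⟨hpd, hnd⟩ := period hp hkd hr
  obtain ⟨hpd', hnd'⟩ := period hp hkd' hr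
  rw [← hφ, hN] at hpd hpd'
  rw [← hφ, hN] at hnd hnd'
  have hin : ∀ n, φ.SameCycle d ((φ ^ n) d) := fun n => ⟨n, by simp⟩
  have hin' : ∀ n, φ.SameCycle d' ((φ ^ n) d') := fun n => ⟨n, by simp⟩
  have hne1 : ∀ n, (φ ^ n) d ≠ d' := fun n hn => hdiff (hn ▸ hin n)
  have hne2 : ∀ n, (φ ^ n) d' ≠ d := fun n hn => hdiff (by
    have := hin' n; rw [hn] at this; exact this.symm)
  have hne3 : ∀ n m, (φ ^ n) d' ≠ (φ ^ m) d := fun n m hn => hdiff (by
    have h1 := hin' n; rw [hn] at h1; exact (hin m).trans h1.symm)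
  have hφd : φ d ≠ d := by
    have := hnd 1 (by norm_num) (by omega)
    simpa using this
  -- the diamond move
  set i : D := σ⁻¹ d' with hi
  set σ1 : Perm D := σ * swap d i with hσ1
  set θ1 : Perm D := swap d i * θ with hθ1
  have hσi : σ i = d' := by rw [hi]; simp
  have hφ1 : σ1 * θ1 = φ := by
    rw [hσ1, hθ1, hφ, mul_assoc, ← mul_assoc (swap d i) (swap d i) θ, swap_mul_self, one_mul]
  have hpl1 : Planar σ1 θ1 ∧ conn σ1 θ1 ≤ conn σ θ := by
    by_cases hdi : d = i
    · have : swap d i = 1 := by rw [← hdi]; exact swap_self d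
      rw [hσ1, hθ1, this, mul_one, one_mul]
      exact ⟨hp.planar, le_refl _⟩
    · refine (h3 D σ θ d i hp.planar hdi).1 (Or.inl ?_)
      refine hsame.trans ?_
      rw [← hσi]
      exact (Perm.sameCycle_apply_left).mpr (Perm.SameCycle.refl _ _)
  have hσ1d : σ1 d = d' := by rw [hσ1, Perm.mul_apply, swap_apply_left, hσi]
  obtain ⟨hpl', hconn'⟩ := (h4 D σ1 θ1 d hpl1.1).2.2
  set σ' : Perm D := σ1 * swap d (σ1⁻¹ d) with hσ'
  set θ' : Perm D := swap d (θ1 d) * θ1 with hθ'
  have hstep : ∀ z, (σ' * θ') z = swap d' d (swap d' (φ d) (φ z)) := by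
    intro z
    rw [Perm.mul_apply, hσ', hθ', phi_step, hφ1, hσ1d]
  -- potentials and types
  have hsw1 : ∀ z, h (swap d i z) = h z := by
    intro z
    by_cases h1 : z = d
    · rw [h1, swap_apply_left, ← hh]
    by_cases h2 : z = i
    · rw [h2, swap_apply_right, hh]
    rw [swap_apply_of_ne_of_ne h1 h2]
  have hhθ1 : ∀ z, h (θ1 z) = h z := by
    intro z; rw [hθ1, Perm.mul_apply, hsw1, hp.hθ]
  have hhθ' : ∀ z, h (θ' z) = h z := by
    intro z
    rw [hθ', Perm.mul_apply]
    by_cases h1 : θ1 z = d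
    · rw [h1, swap_apply_left, hhθ1, ← h1, hhθ1]
    by_cases h2 : θ1 z = θ1 d
    · rw [h2, swap_apply_right, ← hhθ1 z, h2, hhθ1]
    rw [swap_apply_of_ne_of_ne h1 h2, hhθ1]
  have htyinv : ∀ z, ty (σ⁻¹ z) = ty z := by
    intro z
    have := hp.tyσ (σ⁻¹ z)
    rw [ais] at this
    exact this.symm
  have htysc : ∀ x y, σ.SameCycle x y → ty x = ty y := by
    intro x y hxy
    obtain ⟨n, rfl⟩ := hxy.exists_nat_pow_eq
    clear hxy
    induction n with
    | zero => simp
    | succ n ih => rw [pow_succ_apply, hp.tyσ]; exact ih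
  have htyi : ty i = ty d := by
    rw [hi, htyinv]; exact (htysc _ _ hsame).symm
  have htysw : ∀ z, ty (swap d i z) = ty z := by
    intro z
    by_cases h1 : z = d
    · rw [h1, swap_apply_left, htyi]
    by_cases h2 : z = i
    · rw [h2, swap_apply_right, htyi]
    rw [swap_apply_of_ne_of_ne h1 h2]
  have htyσ1 : ∀ z, ty (σ1 z) = ty z := by
    intro z; rw [hσ1, Perm.mul_apply, hp.tyσ, htysw]
  have htyσ1i : ∀ z, ty (σ1⁻¹ z) = ty z := by
    intro z
    have := htyσ1 (σ1⁻¹ z)
    rw [ais] at this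
    exact this.symm
  have htyσ' : ∀ z, ty (σ' z) = ty z := by
    intro z
    rw [hσ', Perm.mul_apply, htyσ1]
    by_cases h1 : z = d
    · rw [h1, swap_apply_left, htyσ1i]
    by_cases h2 : z = σ1⁻¹ d
    · rw [h2, swap_apply_right, htyσ1i]
    rw [swap_apply_of_ne_of_ne h1 h2]
  -- labels
  have hσ1inv : ∀ z, σ1⁻¹ z = swap d i (σ⁻¹ z) := by
    intro z
    rw [hσ1, mul_inv_rev, Perm.mul_apply, swap_inv]
  have hσ'inv : ∀ z, σ'⁻¹ z = swap d (σ1⁻¹ d) (σ1⁻¹ z) := by
    intro z
    rw [hσ', mul_inv_rev, Perm.mul_apply, swap_inv]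
  have hhσ1 : ∀ z, h (σ1⁻¹ z) = h (σ⁻¹ z) := by
    intro z; rw [hσ1inv, hsw1]
  have hσ1d' : σ1⁻¹ d' = d := by rw [← hσ1d, ias]
  have hlab : ∀ z, z ≠ d → z ≠ d' → lab σ' h z = lab σ h z := by
    intro z hz hz'
    unfold lab
    rw [hσ'inv, swap_apply_of_ne_of_ne, hhσ1]
    · intro h1
      apply hz'
      rw [← hσ1d, ← h1, ais]
    · intro h1
      exact hz (σ1⁻¹.injective h1)
  have hlabd' : lab σ' h d' = 1 := by
    have h1 : lab σ' h d' = lab σ h d * lab σ h d' := by
      unfold lab
      rw [hσ'inv, hσ1d', swap_apply_left, hhσ1, ← hi, ← hh]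
      group
    rw [h1]
    exact (mirror hp hkd hkd').2
  have hσ'd : σ' d = d := by
    rw [hσ', Perm.mul_apply, swap_apply_left, ais]
  have hθ'd : θ' d = d := by
    rw [hθ', Perm.mul_apply, swap_apply_right]
  -- the new face permutation outside the two faces
  have hout : ∀ z, ¬ (φ.SameCycle d z ∨ φ.SameCycle d' z) → (σ' * θ') z = φ z := by
    intro z hz
    push Not at hz
    rw [hstep, swap2_out]
    · intro h1
      apply hz.2; rw [← h1]; exact sc_self _ _
    · intro h1
      apply hz.1; rw [φ.injective h1]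
    · intro h1
      apply hz.1; rw [← h1]; exact sc_self _ _
  have houtinv : ∀ z, ¬ (φ.SameCycle d z ∨ φ.SameCycle d' z) →
      ¬ (φ.SameCycle d (φ z) ∨ φ.SameCycle d' (φ z)) := by
    intro z hz
    rwa [Perm.sameCycle_apply_right, Perm.sameCycle_apply_right]
  have houtpow : ∀ z, ¬ (φ.SameCycle d z ∨ φ.SameCycle d' z) → ∀ n,
      ((σ' * θ') ^ n) z = (φ ^ n) z := by
    intro z hz n
    have : ¬ (φ.SameCycle d ((φ ^ n) z) ∨ φ.SameCycle d' ((φ ^ n) z)) ∧
        ((σ' * θ') ^ n) z = (φ ^ n) z := by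
      induction n with
      | zero => exact ⟨by simpa using hz, rfl⟩
      | succ n ih =>
        refine ⟨?_, ?_⟩
        · rw [pow_succ_apply]; exact houtinv _ ih.1
        · rw [pow_succ_apply, pow_succ_apply, ih.2, hout _ ih.1]
    exact this.2
  -- the merged face
  have hA : ∀ n, n ≤ N → ((σ' * θ') ^ n) d' = (φ ^ n) d' := by
    intro n
    induction n with
    | zero => intro _; rfl
    | succ n ih =>
      intro hn
      rw [pow_succ_apply, ih (by omega), hstep, ← pow_succ_apply]
      rw [swap2_out]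
      · exact hnd' (n + 1) (by omega) (by omega)
      · have := hne3 (n + 1) 1; rwa [pow_one] at this
      · exact hne2 _
  have hB : ∀ m, 1 ≤ m → m ≤ N → ((σ' * θ') ^ (N + m)) d' = (φ ^ m) d := by
    intro m
    induction m with
    | zero => intro h1; omega
    | succ m ih =>
      intro _ hm
      rcases Nat.eq_zero_or_pos m with hm0 | hm0
      · subst hm0
        rw [Nat.zero_add, pow_succ_apply, hA N le_rfl, hstep, ← pow_succ_apply, hpd',
          swap_apply_left, swap_apply_of_ne_of_ne, pow_one]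
        · have := hne1 1; simpa using this
        · exact hφd
      · rw [← add_assoc, pow_succ_apply, ih hm0 (by omega), hstep, ← pow_succ_apply,
          swap2_out]
        · exact hne1 _
        · intro h1
          rw [pow_succ_apply] at h1
          have h2 := φ.injective h1
          exact hnd m hm0 (by omega) h2
        · exact hnd _ (by omega) (by omega)
  have hC : ((σ' * θ') ^ (2 * N + 1)) d' = d' := by
    have e : 2 * N + 1 = (N + N) + 1 := by ring
    rw [e, pow_succ_apply, hB N hN1 le_rfl, hstep, ← pow_succ_apply, hpd,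
      swap_apply_of_ne_of_ne hdd hφd.symm, swap_apply_right]
  have hmin : Function.minimalPeriod (σ' * θ') d' = 2 * N + 1 := by
    apply minimalPeriod_eq _ _ _ (by omega) hC
    intro n hn hn2
    rcases Nat.lt_or_ge N n with h1 | h1
    · obtain ⟨m, rfl⟩ : ∃ m, n = N + m := ⟨n - N, by omega⟩
      rw [hB m (by omega) (by omega)]
      exact hne1 _
    · rw [hA n h1]
      exact hnd' n hn (by omega)
  -- kinds
  let kind' : D → Option (ℕ × Bool × ℕ) := fun z =>
    if φ.SameCycle d z ∨ φ.SameCycle d' z then none else kind z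
  have hk1 : ∀ z, (φ.SameCycle d z ∨ φ.SameCycle d' z) → kind' z = none := by
    intro z hz; simp only [kind']; rw [if_pos hz]
  have hk2 : ∀ z, ¬ (φ.SameCycle d z ∨ φ.SameCycle d' z) → kind' z = kind z := by
    intro z hz; simp only [kind']; rw [if_neg hz]
  have hlabout : ∀ z, ¬ (φ.SameCycle d z ∨ φ.SameCycle d' z) → lab σ' h z = lab σ h z := by
    intro z hz
    push Not at hz
    apply hlab
    · rintro rfl; exact hz.1 (Perm.SameCycle.refl _ _)
    · rintro rfl; exact hz.2 (Perm.SameCycle.refl _ _)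
  refine ⟨σ', θ', kind', ⟨hpl', hhθ', htyσ', ?_⟩, hσ'd, hθ'd,
    hk1 _ (Or.inl (Perm.SameCycle.refl _ _)), hk1 _ (Or.inr (Perm.SameCycle.refl _ _)),
    ?_, ?_, ?_, le_trans hconn' hpl1.2⟩
  · -- relator faces
    intro z j2 s2 k2 hz
    have hzo : ¬ (φ.SameCycle d z ∨ φ.SameCycle d' z) := by
      intro hcon; rw [hk1 _ hcon] at hz; cases hz
    rw [hk2 _ hzo] at hz
    obtain ⟨r2, hr2, hw2, hn2, hL⟩ := hp.rel z j2 s2 k2 hz
    refine ⟨r2, hr2, ?_, ?_, ?_⟩
    · rw [hlabout z hzo]; exact hw2
    · have h1 : σ' (θ' z) = φ z := hout z hzo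
      rw [h1, hk2 _ (houtinv z hzo)]
      exact hn2
    · rw [houtpow z hzo]; exact hL
  · -- the merged face is the cycle of `d'`
    intro z hz
    refine ⟨hk1 _ hz, ?_⟩
    rcases hz with hz | hz
    · obtain ⟨n, hn⟩ := hz.exists_nat_pow_eq
      have h1 : (φ ^ (n % (N + 1))) d = z := by
        rw [← hn]
        have e : (φ ^ n) d = (φ ^ (n % (N + 1) + (N + 1) * (n / (N + 1)))) d := by
          rw [Nat.mod_add_div]
        rw [e, pow_add, Perm.mul_apply, pow_mul]
        congr 1
        have h2 : ∀ q, ((φ ^ (N + 1)) ^ q) d = d := by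
          intro q
          induction q with
          | zero => rfl
          | succ q ih => rw [pow_succ_apply, ih, hpd]
        rw [h2]
      rcases Nat.eq_zero_or_pos (n % (N + 1)) with h0 | h0
      · left; rw [← h1, h0]; rfl
      · right
        have hlt : n % (N + 1) < N + 1 := Nat.mod_lt _ (by omega)
        refine ⟨((N + n % (N + 1) : ℕ) : ℤ), ?_⟩
        rw [zpow_natCast, hB _ h0 (by omega), h1]
    · right
      obtain ⟨n, hn⟩ := hz.exists_nat_pow_eq
      have h1 : (φ ^ (n % (N + 1))) d' = z := by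
        rw [← hn]
        have e : (φ ^ n) d' = (φ ^ (n % (N + 1) + (N + 1) * (n / (N + 1)))) d' := by
          rw [Nat.mod_add_div]
        rw [e, pow_add, Perm.mul_apply, pow_mul]
        congr 1
        have h2 : ∀ q, ((φ ^ (N + 1)) ^ q) d' = d' := by
          intro q
          induction q with
          | zero => rfl
          | succ q ih => rw [pow_succ_apply, ih, hpd']
        rw [h2]
      have hlt : n % (N + 1) < N + 1 := Nat.mod_lt _ (by omega)
      refine ⟨((n % (N + 1) : ℕ) : ℤ), ?_⟩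
      rw [zpow_natCast, hA _ (by omega), h1]
  · intro z hz
    exact ⟨hk2 _ hz, hout z hz, hlabout z hz⟩
  · -- the product
    unfold cycProd
    rw [hmin]
    apply prod_mirror
    · simp only [pow_zero, Perm.one_apply]
      unfold elt
      rw [hlabd', map_one]
    · intro m hm1 hmN
      rw [hB m hm1 hmN, hA (N + 1 - m) (by omega)]
      have hka := iter hp hkd hr m
      have hkb := iter hp hkd' hr (N + 1 - m)
      rw [← hφ] at hka hkb
      have e : (k + stp r.word.length (!s) * (N + 1 - m)) % r.word.length =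
          (k + stp r.word.length s * m) % r.word.length := by
        have := pos_opp (L := r.word.length) s k m (by omega) (by omega)
        rw [hN] at this ⊢
        exact this
      rw [e] at hkb
      obtain ⟨h1, h2⟩ := mirror hp hka hkb
      unfold elt
      have ea : lab σ' h ((φ ^ m) d) = lab σ h ((φ ^ m) d) := by
        apply hlab
        · exact hnd m (by omega) (by omega)
        · exact hne1 m
      have eb : lab σ' h ((φ ^ (N + 1 - m)) d') = lab σ h ((φ ^ (N + 1 - m)) d') := by
        apply hlab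
        · exact hne2 _
        · exact hnd' _ (by omega) (by omega)
      rw [ea, eb, h1, ← map_mul, h2, map_one]

end Pool.Agent.H44.TF
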