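import Pool.Agent.H7.TF.Targets

/-!
# MP_7a929c_al : positions along the relator faces, products over ranges
-/

set_option autoImplicit false

namespace Pool.Agent.H44.TF

open Equiv Pool.Agent.H7.TF

theorem pow_succ_apply {D : Type} (φ : Perm D) (n : ℕ) (z : D) :
    (φ ^ (n + 1)) z = φ ((φ ^ n) z) := by
  rw [pow_succ', Perm.mul_apply]

theorem ais {D : Type} (f : Perm D) (x : D) : f (f⁻¹ x) = x := by
  rw [← Perm.mul_apply, mul_inv_cancel, Perm.one_apply]

theorem ias {D : Type} (f : Perm D) (x : D) : f⁻¹ (f x) = x := by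
  rw [← Perm.mul_apply, inv_mul_cancel, Perm.one_apply]

theorem sc_self {D : Type} (f : Perm D) (x : D) : f.SameCycle (f x) x :=
  (Perm.sameCycle_apply_left).mpr (Perm.SameCycle.refl _ _)

/-- signed step -/
def stp (L : ℕ) (s : Bool) : ℕ := if s then 1 else L - 1

theorem nxt_eq {L : ℕ} (s : Bool) (k : ℕ) (hL : 1 ≤ L) : nxt L s k = (k + stp L s) % L := by
  unfold nxt stp
  cases s
  · simp only [Bool.false_eq_true, if_false]; congr 1; omega
  · simp

theorem stp_dvd {L : ℕ} (s : Bool) (n : ℕ) (hL : 1 ≤ L) (h : L ∣ stp L s * n) : L ∣ n := by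
  unfold stp at h
  cases s
  · simp only [Bool.false_eq_true, if_false] at h
    have hco : Nat.Coprime L (L - 1) := by
      obtain ⟨m, rfl⟩ : ∃ m, L = m + 1 := ⟨L - 1, by omega⟩
      simp
    exact hco.dvd_of_dvd_mul_left h
  · simpa using h

theorem stp_add {L : ℕ} (s : Bool) (hL : 1 ≤ L) : stp L s + stp L (!s) = L := by
  unfold stp
  cases s <;> simp <;> omega

/-- opposite positions -/
theorem pos_opp {L : ℕ} (s : Bool) (k m : ℕ) (hL : 1 ≤ L) (hm : m ≤ L) :
    (k + stp L (!s) * (L - m)) % L = (k + stp L s * m) % L := by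
  have h1 := stp_add s hL
  obtain ⟨n, rfl⟩ : ∃ n, L = m + n := ⟨L - m, by omega⟩
  rw [Nat.add_sub_cancel_left]
  have h2 : stp (m + n) (!s) * (m + n) + (k + stp (m + n) s * m) =
      k + stp (m + n) (!s) * n + (m + n) * m := by
    have : (stp (m + n) s + stp (m + n) (!s)) * m = (m + n) * m := by rw [h1]
    nlinarith
  have h3 : (stp (m + n) (!s) * (m + n) + (k + stp (m + n) s * m)) % (m + n) =
      (k + stp (m + n) (!s) * n + (m + n) * m) % (m + n) := by rw [h2]
  rw [Nat.add_mul_mod_self_left, Nat.add_comm (stp (m + n) (!s) * (m + n)),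
    Nat.add_mul_mod_self_right] at h3
  exact h3.symm

theorem word_length {P : Type} [Group P] (r : Rel P) : 2 ≤ r.word.length := by
  simp [Rel.word]

section Pic

variable {P : Type} [Group P] {D : Type} {R : List (Rel P)} {σ θ : Perm D} {h : D → P}
  {ty : D → Fin 3} {kind : D → Option (ℕ × Bool × ℕ)}

theorem iter (hp : IsPic R σ θ h ty kind) {d : D} {j : ℕ} {s : Bool} {k : ℕ} {r : Rel P}
    (hk : kind d = some (j, s, k)) (hr : R[j]? = some r) (n : ℕ) :
    kind (((σ * θ) ^ n) d) = some (j, s, (k + stp r.word.length s * n) % r.word.length) := by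
  have hL : 1 ≤ r.word.length := le_trans (by norm_num) (word_length r)
  induction n with
  | zero =>
    obtain ⟨r', hr', hw, -, -⟩ := hp.rel d j s k hk
    rw [hr] at hr'; cases hr'
    have hlt : k < r.word.length := by
      by_contra hcon
      rw [List.getElem?_eq_none (by omega)] at hw
      cases hw
    simp [hk, Nat.mod_eq_of_lt hlt]
  | succ n ih =>
    obtain ⟨r', hr', -, hn, -⟩ := hp.rel _ _ _ _ ih
    rw [hr] at hr'; cases hr'
    rw [pow_succ_apply, Perm.mul_apply, hn, nxt_eq _ _ hL]
    congr 3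
    rw [Nat.mod_add_mod, mul_add, mul_one, add_assoc]

theorem lt_length (hp : IsPic R σ θ h ty kind) {d : D} {j : ℕ} {s : Bool} {k : ℕ} {r : Rel P}
    (hk : kind d = some (j, s, k)) (hr : R[j]? = some r) : k < r.word.length := by
  obtain ⟨r', hr', hw, -, -⟩ := hp.rel d j s k hk
  rw [hr] at hr'; cases hr'
  by_contra hcon
  rw [List.getElem?_eq_none (by omega)] at hw
  cases hw

/-- the period of a relator face is exactly the length of the relator -/
theorem period (hp : IsPic R σ θ h ty kind) {d : D} {j : ℕ} {s : Bool} {k : ℕ} {r : Rel P}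
    (hk : kind d = some (j, s, k)) (hr : R[j]? = some r) :
    ((σ * θ) ^ r.word.length) d = d ∧ ∀ n, 0 < n → n < r.word.length → ((σ * θ) ^ n) d ≠ d := by
  have hL : 1 ≤ r.word.length := le_trans (by norm_num) (word_length r)
  refine ⟨?_, ?_⟩
  · obtain ⟨r', hr', -, -, hL'⟩ := hp.rel d j s k hk
    rw [hr] at hr'; cases hr'
    exact hL'
  · intro n hn hnL heq
    have h1 := iter hp hk hr n
    rw [heq, hk] at h1
    have h2 : k = (k + stp r.word.length s * n) % r.word.length := by
      simpa using h1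
    have h3 : (k + 0) % r.word.length = (k + stp r.word.length s * n) % r.word.length := by
      rw [← h2, add_zero, Nat.mod_eq_of_lt (lt_length hp hk hr)]
    have h4 : 0 ≡ stp r.word.length s * n [MOD r.word.length] :=
      Nat.ModEq.add_left_cancel' k h3
    have h5 : r.word.length ∣ stp r.word.length s * n := (Nat.modEq_zero_iff_dvd).mp h4.symm
    have h6 := Nat.le_of_dvd hn (stp_dvd s n hL h5)
    omega

theorem iter_ne_other (hp : IsPic R σ θ h ty kind) {d d' : D} {j : ℕ} {s : Bool} {k : ℕ}
    {j' : ℕ} {s' : Bool} {k' : ℕ} (hk : kind d = some (j, s, k)) (hk' : kind d' = some (j', s', k'))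
    (hs : s ≠ s') [Finite D] : ¬ (σ * θ).SameCycle d d' := by
  intro hc
  obtain ⟨n, hn⟩ := hc.exists_nat_pow_eq
  obtain ⟨r, hr, -, -, -⟩ := hp.rel d j s k hk
  have h1 := iter hp hk hr n
  rw [hn, hk'] at h1
  simp only [Option.some.injEq, Prod.mk.injEq] at h1
  exact hs h1.2.1.symm

/-- mirror corners -/
theorem mirror (hp : IsPic R σ θ h ty kind) {z z' : D} {j : ℕ} {s : Bool} {p : ℕ}
    (hz : kind z = some (j, s, p)) (hz' : kind z' = some (j, !s, p)) :
    ty z = ty z' ∧ lab σ h z * lab σ h z' = 1 := by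
  obtain ⟨r, hr, hw, -, -⟩ := hp.rel z j s p hz
  obtain ⟨r', hr', hw', -, -⟩ := hp.rel z' j (!s) p hz'
  rw [hr] at hr'; cases hr'
  rw [hw] at hw'
  simp only [Option.some.injEq, Prod.mk.injEq] at hw'
  obtain ⟨h1, h2⟩ := hw'
  refine ⟨h1, ?_⟩
  cases s
  · simp only [Bool.false_eq_true, if_false, Bool.not_false, if_true] at h2
    rw [← h2]; simp
  · simp only [Bool.not_true, Bool.false_eq_true, if_false, if_true] at h2
    rw [h2]; simp

end Pic

/-- a telescoping product -/
theorem prod_mirror {G : Type} [Group G] (F : ℕ → G) (N : ℕ) (h0 : F 0 = 1)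
    (h : ∀ m, 1 ≤ m → m ≤ N → F (N + m) * F (N + 1 - m) = 1) :
    ((List.range (2 * N + 1)).map F).prod = 1 := by
  have key : ∀ j, j ≤ N → ((List.range (N + 1 + j)).map F).prod =
      ((List.range (N + 1 - j)).map F).prod := by
    intro j
    induction j with
    | zero => intro _; rfl
    | succ j ih =>
      intro hj
      have h1 := ih (by omega)
      have e1 : N + 1 + (j + 1) = (N + 1 + j).succ := by omega
      have e2 : N + 1 - j = (N + 1 - (j + 1)).succ := by omega
      rw [e1, List.prod_range_succ, h1, e2, List.prod_range_succ, mul_assoc]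
      have h2 := h (j + 1) (by omega) hj
      have e3 : N + (j + 1) = N + 1 + j := by omega
      rw [e3] at h2
      rw [mul_eq_one_iff_eq_inv.mp h2, mul_inv_cancel, mul_one]
  have h1 := key N le_rfl
  have e1 : N + 1 + N = 2 * N + 1 := by ring
  have e2 : N + 1 - N = 1 := by omega
  rw [e1, e2] at h1
  rw [h1]
  simp [h0]

theorem minimalPeriod_eq {D : Type} (φ : Perm D) (d : D) (N : ℕ) (hN : 0 < N)
    (h1 : (φ ^ N) d = d) (h2 : ∀ n, 0 < n → n < N → (φ ^ n) d ≠ d) :
    Function.minimalPeriod φ d = N := by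
  have e : ∀ n, (φ ^ n) d = (φ : D → D)^[n] d := by
    intro n; rw [Perm.iterate_eq_pow]
  apply le_antisymm
  · apply Function.IsPeriodicPt.minimalPeriod_le hN
    show (φ : D → D)^[N] d = d
    rw [← e]; exact h1
  · by_contra hlt
    push Not at hlt
    have hpos : 0 < Function.minimalPeriod φ d := by
      apply Function.IsPeriodicPt.minimalPeriod_pos hN
      show (φ : D → D)^[N] d = d
      rw [← e]; exact h1
    apply h2 _ hpos hlt
    rw [e]
    exact Function.isPeriodicPt_minimalPeriod φ d

end Pool.Agent.H44.TF
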