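import Pool.Agent.H44.TF.A6
import Pool.Agent.H44.TF.Face

/-!
# MP_7a929c_al : module B4 (cancelling a mirror pair of faces)
-/

set_option autoImplicit false

namespace Pool.Agent.H44.TF

open Equiv Pool.Agent.H7.TF

/-- an isolated dart is alone in its component -/
theorem conn_isolated {D : Type} {α β : Perm D} {d z : D} (hα : α d = d) (hβ : β d = d)
    (h : conn α β d z) : z = d := by
  let s : Setoid D :=
    { r := fun x y => (x = d ↔ y = d)
      iseqv := ⟨fun _ => Iff.rfl, fun h => h.symm, fun h h' => h.trans h'⟩ }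
  have key : ∀ γ : Perm D, γ d = d → Perm.SameCycle.setoid γ ≤ s := by
    intro γ hγ x y hxy
    refine rel_of_sameCycle γ s ?_ hxy
    intro w
    show (γ w = d ↔ w = d)
    constructor
    · intro h1; apply γ.injective; rw [h1, hγ]
    · intro h1; rw [h1, hγ]
  have h1 : conn α β ≤ s := sup_le (key α hα) (key β hβ)
  have h2 : (d = d ↔ z = d) := h1 h
  exact h2.mp rfl

theorem b4 (h2 : T_B2) (h3 : T_B3) : T_B4 := by
  intro P _ R D _ _ σ θ h ty kind d d' j s k hp hsame hkd hkd' hh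
  obtain ⟨σ1, θ1, kind1, hp1, hσd, hθd, hk1d, hk1d', hin, hout, hprod, hconn⟩ :=
    h3 P R D σ θ h ty kind d d' j s k hp hsame hkd hkd' hh
  obtain ⟨σ2, θ2, hp2, hin2, hout2, hconn2⟩ :=
    h2 P R D σ1 θ1 h ty kind1 d' hp1 hk1d' hprod
  have hiso : σ2 d = d ∧ θ2 d = d := by
    constructor
    · apply conn_isolated hσd hθd
      apply hconn2
      show conn σ2 θ2 d (σ2 d)
      exact (le_sup_left : Perm.SameCycle.setoid σ2 ≤ conn σ2 θ2) (sc_self σ2 d).symm
    · apply conn_isolated hσd hθd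
      apply hconn2
      show conn σ2 θ2 d (θ2 d)
      exact (le_sup_right : Perm.SameCycle.setoid θ2 ≤ conn σ2 θ2) (sc_self θ2 d).symm
  have hout3 : ∀ z, ¬ ((σ * θ).SameCycle d z ∨ (σ * θ).SameCycle d' z) →
      ¬ (σ1 * θ1).SameCycle d' z := by
    intro z hz hcon
    obtain ⟨n, hn⟩ := hcon.symm.exists_nat_pow_eq
    have key : ∀ n, ¬ ((σ * θ).SameCycle d (((σ1 * θ1) ^ n) z) ∨
        (σ * θ).SameCycle d' (((σ1 * θ1) ^ n) z)) := by
      intro n
      induction n with
      | zero => simpa using hz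
      | succ n ih =>
        rw [pow_succ_apply, (hout _ ih).2.1, Perm.sameCycle_apply_right,
          Perm.sameCycle_apply_right]
        exact ih
    apply key n
    rw [hn]
    exact Or.inr (Perm.SameCycle.refl _ _)
  refine ⟨σ2, θ2, kind1, hp2, ?_, ?_, le_trans hconn2 hconn⟩
  · intro z hz
    obtain ⟨hk, hz2⟩ := hin z hz
    rcases hz2 with rfl | hz2
    · exact ⟨hk, hiso⟩
    · exact ⟨hk, hin2 z hz2⟩
  · intro z hz
    obtain ⟨hk, hφ, hl⟩ := hout z hz
    obtain ⟨hφ2, hl2⟩ := hout2 z (hout3 z hz)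
    exact ⟨hk, hφ2.trans hφ, hl2.trans hl⟩

end Pool.Agent.H44.TF
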